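import Pool.Agent.W314.BA.Lat

set_option autoImplicit false

open MeasureTheory Set Filter Topology Real

namespace Pool.Agent.W924.BALCT

open Pool.Agent.W314.BA

theorem main : LatCountStmt := by
  intro Γ σ F h R
  obtain ⟨R0, hR0⟩ := h.F_bdd
  refine (h.fin (2 * R * R0)).subset ?_
  rintro γ ⟨hγ, u, hu, huF⟩
  have h1 : hh u ≤ R := hu
  have h2 : hh (u * γ) ≤ R0 := hR0 huF
  have h3 : hh γ = hh (u⁻¹ * (u * γ)) := by rw [inv_mul_cancel_left]
  have h4 := hh_mul_le u⁻¹ (u * γ)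
  rw [hh_inv] at h4
  have h5 := one_le_hh u
  have h6 := one_le_hh (u * γ)
  refine ⟨hγ, ?_⟩
  rw [h3]
  refine h4.trans ?_
  nlinarith [mul_nonneg (sub_nonneg.2 h1) (by linarith : (0:ℝ) ≤ hh (u * γ)),
    mul_nonneg (sub_nonneg.2 h2) (by linarith : (0:ℝ) ≤ R)]

end Pool.Agent.W924.BALCT
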