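import Pool.Agent.W314.BA.Lat

set_option autoImplicit false

open MeasureTheory Set Filter Topology Real
open scoped ENNReal NNReal

namespace Pool.Agent.W924.BALS

open Pool.Agent.W314.BA

section
variable {Γ : Subgroup G} {σ : G → ℤ} {F : Set G}

lemma sig_one (h : LatD Γ σ F) : σ 1 = 0 := by
  have := h.σ_mul 1 1 Γ.one_mem
  rw [mul_one] at this
  omega

lemma sig_neg (h : LatD Γ σ F) : σ (-1) = 0 := by
  have h1 := h.σ_mul (-1) (-1) h.neg
  have h2 : (-1 : G) * (-1) = 1 := by rw [neg_mul_neg, one_mul]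
  rw [h2, sig_one h] at h1
  omega

lemma sig_red (h : LatD Γ σ F) (g w : G) :
    σ (g * (redL h w : G)) - σ (redL h w : G) = σ (g * w) - σ w := by
  rw [redL_coe_eq, ← mul_assoc, h.σ_mul _ _ (gamL h w).2, h.σ_mul _ _ (gamL h w).2]
  ring

lemma red_neg (h : LatD Γ σ F) (y : F) : redL h (-1 * (y : G)) = y := by
  have e : (-1 : G) * (y : G) = (y : G) * ((⟨-1, h.neg⟩ : Γ) : G) := by
    simp
  rw [e, redL_mul, redL_coe]

end

theorem main (h1 : LatAStmt) (h2 : LatBStmt) (h3 : LatCStmt) : LatSysStmt := by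
  intro Γ σ F h
  obtain ⟨hprob, hred, hmp⟩ := h1 Γ σ F h
  haveI hPM : PolishSpace (Matrix (Fin 2) (Fin 2) ℝ) :=
    inferInstanceAs (PolishSpace (Fin 2 → Fin 2 → ℝ))
  have hPol : PolishSpace G := Pool.Agent.W745.closedEmb.polishSpace
  have hSB : StandardBorelSpace G := inferInstance
  have hSB' : StandardBorelSpace F := h.F_meas.standardBorel
  refine ⟨F, inferInstance, hSB', actL h, muL F, cL σ F, ?_⟩
  letI := actL h
  refine
    { prob := hprob
      smul_meas := ?_
      mp := hmp
      c_meas := ?_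
      coc := ?_
      neg_smul := ?_
      c_neg := ?_
      bdd := ?_
      dens := h2 Γ σ F h
      cover := h3 Γ σ F h }
  · have hm : Measurable (fun p : G × F => p.1 * (p.2 : G)) :=
      measurable_fst.mul (measurable_subtype_coe.comp measurable_snd)
    exact hred.comp hm
  · have hm : Measurable (fun p : G × F => p.1 * (p.2 : G)) :=
      measurable_fst.mul (measurable_subtype_coe.comp measurable_snd)
    exact (h.σ_meas.comp hm).sub
      (h.σ_meas.comp (measurable_subtype_coe.comp measurable_snd))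
  · intro g g' y
    show σ (g * g' * (y : G)) - σ (y : G) =
      (σ (g * (redL h (g' * (y : G)) : G)) - σ (redL h (g' * (y : G)) : G)) +
        (σ (g' * (y : G)) - σ (y : G))
    rw [sig_red h g (g' * (y : G)), ← mul_assoc]
    ring
  · intro y
    exact red_neg h y
  · intro y
    show σ (-1 * (y : G)) - σ (y : G) = 0
    have e : (-1 : G) * (y : G) = (y : G) * (-1) := by simp
    rw [e, h.σ_mul _ _ h.neg, sig_neg h]
    ring
  · intro x
    obtain ⟨R0, hR0⟩ := h.F_bdd
    obtain ⟨C1, hC1⟩ := h.σ_bdd (2 * x * R0)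
    obtain ⟨C2, hC2⟩ := h.σ_bdd R0
    refine ⟨C1 + C2, fun g hg y => ?_⟩
    have e1 := hC2 (y : G) (hR0 y.2)
    have e2 : |σ (g * (y : G))| ≤ C1 := by
      apply hC1
      have a1 : hh g ≤ x := hg
      have a2 : hh (y : G) ≤ R0 := hR0 y.2
      have a3 := hh_mul_le g (y : G)
      have a4 := one_le_hh g
      have a5 := one_le_hh (y : G)
      show hh (g * (y : G)) ≤ 2 * x * R0
      refine a3.trans ?_
      nlinarith [mul_nonneg (sub_nonneg.2 a1) (by linarith : (0:ℝ) ≤ hh (y : G)),
        mul_nonneg (sub_nonneg.2 a2) (by linarith : (0:ℝ) ≤ x)]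
    show |σ (g * (y : G)) - σ (y : G)| ≤ C1 + C2
    exact (abs_sub _ _).trans (add_le_add e2 e1)

end Pool.Agent.W924.BALS
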