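import Pool.Agent.W314.BA.Stm

set_option autoImplicit false

open MeasureTheory Set Filter Topology Real

namespace Pool.Agent.W924.BA

open Pool.Agent.W314.BA

/-- The energy in terms of the inner products. -/
noncomputable def EE (x P R S Q : ℝ) : ℝ :=
  P / 2 - R / (2 * x) + S / (4 * x ^ 2) + Q / (2 * (x ^ 2 - 1))

/-- The derivative of the energy. -/
noncomputable def DD (x P R S Q : ℝ) : ℝ :=
  -P / (2 * x) + Q / (2 * x * (x ^ 2 - 1)) + R / x ^ 2 - S / (2 * x ^ 3) -
    x * Q / (x ^ 2 - 1) ^ 2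

lemma alg {x P R S Q κ : ℝ} (hx : 1 < x) (hκ : 0 < κ) (hκ1 : κ ≤ 1) (hS : 0 ≤ S)
    (hQ : κ * S ≤ Q) (hsq : ∀ a : ℝ, 0 ≤ P + 2 * a * R + a ^ 2 * S) :
    (κ / 2) * EE x P R S Q + x * DD x P R S Q ≤ 0 ∧ S / (8 * x ^ 2) ≤ EE x P R S Q := by
  have hx0 : 0 < x := by linarith
  have hx1 : 0 < x ^ 2 - 1 := by nlinarith
  have hQ0 : 0 ≤ Q := (mul_nonneg hκ.le hS).trans hQ
  set s := S / x ^ 2 with hs
  set r := R / x - S / x ^ 2 with hr
  set u := P - 2 * R / x + S / x ^ 2 with hu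
  set W := Q / (x ^ 2 - 1) with hW
  set Z := Q / (x ^ 2 - 1) ^ 2 with hZ
  have hs0 : 0 ≤ s := by positivity
  have hW0 : 0 ≤ W := by positivity
  have hZ0 : 0 ≤ Z := by positivity
  have hu0 : 0 ≤ u := by
    have := hsq (-1 / x)
    have e : P + 2 * (-1 / x) * R + (-1 / x) ^ 2 * S = u := by rw [hu]; field_simp; ring
    rwa [e] at this
  have h1 : 0 ≤ u - 2 * r + s := by
    have := hsq (-2 / x)
    have e : P + 2 * (-2 / x) * R + (-2 / x) ^ 2 * S = u - 2 * r + s := by
      rw [hu, hr, hs]; field_simp; ring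
    rwa [e] at this
  have h2 : 0 ≤ u + r + s / 4 := by
    have := hsq (-1 / (2 * x))
    have e : P + 2 * (-1 / (2 * x)) * R + (-1 / (2 * x)) ^ 2 * S = u + r + s / 4 := by
      rw [hu, hr, hs]; field_simp; ring
    rwa [e] at this
  have h3 : κ * s ≤ W := by
    rw [hs, hW]
    have e1 : κ * (S / x ^ 2) = (κ * S) / x ^ 2 := by ring
    rw [e1]
    calc κ * S / x ^ 2 ≤ Q / x ^ 2 := by gcongr
      _ ≤ Q / (x ^ 2 - 1) := div_le_div_of_nonneg_left hQ0 hx1 (by linarith)
  have eE : EE x P R S Q = u / 2 + W / 2 + r / 2 + s / 4 := by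
    rw [EE, hu, hW, hr, hs]
    field_simp
    ring
  have eD : x * DD x P R S Q = -u / 2 - W / 2 - Z := by
    rw [DD, hu, hW, hZ]
    have : x ^ 2 - 1 ≠ 0 := hx1.ne'
    field_simp
    ring
  refine ⟨?_, ?_⟩
  · rw [eE, eD]
    nlinarith [mul_nonneg hκ.le h1, mul_nonneg (sub_nonneg.2 hκ1) hu0,
      mul_nonneg (sub_nonneg.2 hκ1) hW0]
  · rw [eE]
    have e : S / (8 * x ^ 2) = s / 8 := by rw [hs]; field_simp
    rw [e]
    linarith

theorem main : ODEStmt := by
  intro H _ _ β p b κ hκ hκ1 hβ hp hb hsym hlow x hx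
  have hQ' : ∀ x : ℝ, 1 < x → HasDerivAt (fun x => inner ℝ (b x) (β x))
      (2 * inner ℝ (b x) (p x)) x := by
    intro x hx
    rw [hasDerivAt_iff_tendsto_slope]
    have h1 : Tendsto (slope β x) (𝓝[≠] x) (𝓝 (p x)) := hasDerivAt_iff_tendsto_slope.1 (hβ x hx)
    have h2 : Tendsto b (𝓝[≠] x) (𝓝 (b x)) :=
      ((hb.continuousAt (Ioi_mem_nhds hx)).tendsto).mono_left nhdsWithin_le_nhds
    have h3 : Tendsto (fun y => inner ℝ (b y + b x) (slope β x y)) (𝓝[≠] x)
        (𝓝 (inner ℝ (b x + b x) (p x))) := (h2.add tendsto_const_nhds).inner h1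
    have e : inner ℝ (b x + b x) (p x) = 2 * inner ℝ (b x) (p x) := by
      rw [inner_add_left]; ring
    rw [e] at h3
    refine h3.congr' ?_
    have h4' : ∀ᶠ y in 𝓝 x, 1 < y := Ioi_mem_nhds hx
    have h4 : ∀ᶠ y in 𝓝[≠] x, 1 < y := h4'.filter_mono nhdsWithin_le_nhds
    filter_upwards [h4] with y hy
    have h5 := hsym y x hy hx
    rw [slope_def_module, slope_def_field, inner_smul_right, inner_add_left, inner_sub_right,
      inner_sub_right]
    have h6 : inner ℝ (b y) (β y) - inner ℝ (b y) (β x) + (inner ℝ (b x) (β y) -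
        inner ℝ (b x) (β x)) = inner ℝ (b y) (β y) - inner ℝ (b x) (β x) := by
      rw [h5]; ring
    rw [h6, div_eq_inv_mul]
  set P : ℝ → ℝ := fun x => inner ℝ (p x) (p x) with hP
  set R : ℝ → ℝ := fun x => inner ℝ (p x) (β x) with hR
  set S : ℝ → ℝ := fun x => inner ℝ (β x) (β x) with hS
  set Q : ℝ → ℝ := fun x => inner ℝ (b x) (β x) with hQ
  have dP : ∀ x : ℝ, 1 < x → HasDerivAt P (-2 * (x ^ 2 - 1)⁻¹ * inner ℝ (b x) (p x)) x := by
    intro x hx
    have := (hp x hx).inner ℝ (hp x hx)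
    refine this.congr_deriv ?_
    rw [inner_smul_right, inner_smul_left, real_inner_comm (p x) (b x)]
    simp only [conj_trivial]
    ring
  have dR : ∀ x : ℝ, 1 < x → HasDerivAt R (P x - (x ^ 2 - 1)⁻¹ * Q x) x := by
    intro x hx
    have := (hp x hx).inner ℝ (hβ x hx)
    refine this.congr_deriv ?_
    rw [inner_smul_left]
    simp only [conj_trivial, hP, hQ]
    ring
  have dS : ∀ x : ℝ, 1 < x → HasDerivAt S (2 * R x) x := by
    intro x hx
    have := (hβ x hx).inner ℝ (hβ x hx)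
    refine this.congr_deriv ?_
    rw [real_inner_comm (p x) (β x)]
    simp only [hR]
    ring
  set E : ℝ → ℝ := fun x => EE x (P x) (R x) (S x) (Q x) with hE
  have dE : ∀ x : ℝ, 1 < x → HasDerivAt E (DD x (P x) (R x) (S x) (Q x)) x := by
    intro x hx
    have hx0 : x ≠ 0 := by linarith
    have hx1 : x ^ 2 - 1 ≠ 0 := by nlinarith
    have d1 : HasDerivAt (fun y : ℝ => 2 * y) 2 x := by
      simpa using (hasDerivAt_id x).const_mul 2
    have d2 : HasDerivAt (fun y : ℝ => 4 * y ^ 2) (8 * x) x := by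
      have := (hasDerivAt_pow 2 x).const_mul 4
      refine this.congr_deriv ?_
      simp; ring
    have d3 : HasDerivAt (fun y : ℝ => 2 * (y ^ 2 - 1)) (4 * x) x := by
      have := ((hasDerivAt_pow 2 x).sub_const 1).const_mul 2
      refine this.congr_deriv ?_
      simp; ring
    have := ((((dP x hx).div_const 2).sub ((dR x hx).div d1 (by simpa using hx0))).add
      ((dS x hx).div d2 (by simpa using hx0))).add ((hQ' x hx).div d3 (by simpa using hx1))
    refine this.congr_deriv ?_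
    unfold DD
    field_simp
    ring
  have hpt : ∀ x : ℝ, 1 < x → (κ / 2) * E x + x * DD x (P x) (R x) (S x) (Q x) ≤ 0 ∧
      S x / (8 * x ^ 2) ≤ E x := by
    intro x hx
    refine alg hx hκ hκ1 real_inner_self_nonneg ?_ ?_
    · have := hlow x hx
      rw [← real_inner_self_eq_norm_sq] at this
      exact this
    · intro a
      have h1 : 0 ≤ inner ℝ (p x + a • β x) (p x + a • β x) := real_inner_self_nonneg
      have h2 : inner ℝ (p x + a • β x) (p x + a • β x) = P x + 2 * a * R x + a ^ 2 * S x := by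
        rw [inner_add_left, inner_add_right, inner_add_right, inner_smul_left, inner_smul_left,
          inner_smul_right, inner_smul_right, real_inner_comm (p x) (β x)]
        simp only [conj_trivial, hP, hR, hS]
        ring
      rwa [h2] at h1
  set F : ℝ → ℝ := fun x => x ^ (κ / 2) * E x with hF
  have dF : ∀ x : ℝ, 1 < x → HasDerivAt F (x ^ (κ / 2 - 1) *
      ((κ / 2) * E x + x * DD x (P x) (R x) (S x) (Q x))) x := by
    intro x hx
    have hx0 : 0 < x := by linarith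
    have := (Real.hasDerivAt_rpow_const (p := κ / 2) (Or.inl hx0.ne')).mul (dE x hx)
    refine this.congr_deriv ?_
    have e : x ^ (κ / 2) = x ^ (κ / 2 - 1) * x := by
      rw [Real.rpow_sub_one hx0.ne']
      field_simp
    rw [e]
    ring
  have hanti : AntitoneOn F (Ici 2) := by
    apply antitoneOn_of_deriv_nonpos (convex_Ici 2)
    · intro y hy
      have hy' : (1 : ℝ) < y := by have := mem_Ici.1 hy; linarith
      exact (dF y hy').continuousAt.continuousWithinAt
    · intro y hy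
      rw [interior_Ici] at hy
      have hy' : (1 : ℝ) < y := by have := mem_Ioi.1 hy; linarith
      exact (dF y hy').differentiableAt.differentiableWithinAt
    · intro y hy
      rw [interior_Ici] at hy
      have hy' : (1 : ℝ) < y := by have := mem_Ioi.1 hy; linarith
      rw [(dF y hy').deriv]
      exact mul_nonpos_of_nonneg_of_nonpos (Real.rpow_nonneg (by linarith) _) (hpt y hy').1
  have h1 := hanti (mem_Ici.2 le_rfl) (mem_Ici.2 hx) hx
  have hx0 : 0 < x := by linarith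
  set N : ℝ := ‖p 2‖ + ‖β 2‖ + ‖b 2‖ with hN
  have n1 := norm_nonneg (p 2)
  have n2 := norm_nonneg (β 2)
  have n3 := norm_nonneg (b 2)
  have hE2 : E 2 ≤ 2 * N ^ 2 := by
    have c1 := abs_real_inner_le_norm (p 2) (β 2)
    have c2 := abs_real_inner_le_norm (b 2) (β 2)
    have c3 := (abs_le.1 c1).1
    have c4 := (abs_le.1 c2).2
    have e1 : P 2 = ‖p 2‖ ^ 2 := real_inner_self_eq_norm_sq _
    have e2 : S 2 = ‖β 2‖ ^ 2 := real_inner_self_eq_norm_sq _
    have e3 : E 2 = ‖p 2‖ ^ 2 / 2 - inner ℝ (p 2) (β 2) / 4 + ‖β 2‖ ^ 2 / 16 +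
        inner ℝ (b 2) (β 2) / 6 := by
      simp only [hE, EE, e1, e2]
      simp only [hR, hQ]
      norm_num
    rw [e3, hN]
    nlinarith [mul_nonneg n1 n2, mul_nonneg n1 n3, mul_nonneg n2 n3, sq_nonneg ‖p 2‖,
      sq_nonneg ‖β 2‖, sq_nonneg ‖b 2‖]
  have h2 : E x ≤ (x / 2) ^ (-(κ / 2)) * E 2 := by
    have e1 : (x / 2) ^ (-(κ / 2)) = 2 ^ (κ / 2) / x ^ (κ / 2) := by
      rw [Real.rpow_neg (by positivity), Real.div_rpow hx0.le (by norm_num), inv_div]
    have h3 : 0 < x ^ (κ / 2) := Real.rpow_pos_of_pos hx0 _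
    rw [e1, div_mul_eq_mul_div, le_div_iff₀ h3]
    simp only [hF] at h1
    linarith
  have h4 := (hpt x (by linarith)).2
  have e5 : ‖β x‖ ^ 2 = S x := (real_inner_self_eq_norm_sq _).symm
  rw [e5]
  have h6 : S x ≤ 8 * x ^ 2 * E x := by
    rw [div_le_iff₀ (by positivity)] at h4
    linarith
  have h7 : (x / 2) ^ (-(κ / 2)) * E 2 ≤ (x / 2) ^ (-(κ / 2)) * (2 * N ^ 2) :=
    mul_le_mul_of_nonneg_left hE2 (Real.rpow_nonneg (by positivity) _)
  calc S x ≤ 8 * x ^ 2 * E x := h6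
    _ ≤ 8 * x ^ 2 * ((x / 2) ^ (-(κ / 2)) * (2 * N ^ 2)) := by
      apply mul_le_mul_of_nonneg_left (h2.trans h7) (by positivity)
    _ = 16 * x ^ 2 * N ^ 2 * (x / 2) ^ (-(κ / 2)) := by ring

end Pool.Agent.W924.BA
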